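import Pool.Agent.T2H28.OT.Final

/-!
# MP_1d7982_pr: the expected cost is at least of order `√T log T`

For the stationary Brownian motion on the flat torus of dimension three and the exponent one
half, the expected transport cost of the occupation measure to the uniform measure is at least
`c √T log T`. In particular it is not of order `√(T log T)`.

The definitions used in the statement are the ones of the imported files:
`T3 = Fin 3 → UnitAddCircle`, `prj` (the projection of `ℝ^3` to the torus), `IsBM3`, `IsStatBM`,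
`tdist`, `Wp`, `occ` and `EW`.
-/

set_option autoImplicit false

namespace Pool.Agent.Results.MP_1d7982_pr.LogFactor

open MeasureTheory ProbabilityTheory Filter
open scoped ENNReal NNReal
open Pool.Agent.T2H28.OT

theorem result : ∃ c0 : ℝ, 0 < c0 ∧
    ∀ (Ω : Type) [MeasurableSpace Ω] (P : Measure Ω) [IsProbabilityMeasure P]
      (B : ℝ≥0 → Ω → T3), IsStatBM P B →
      (∀ᶠ T : ℝ in atTop,
        ENNReal.ofReal (c0 * (Real.sqrt T * Real.log T)) ≤ EW P B T) ∧
      (∀ c : ℝ, 0 < c → ∀ᶠ T : ℝ in atTop,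
        ENNReal.ofReal (c * Real.sqrt (T * Real.log T)) < EW P B T) ∧
      ¬ ∃ c : ℝ, 0 < c ∧ ∀ᶠ T : ℝ in atTop,
        ENNReal.ofReal (c⁻¹ * Real.sqrt (T * Real.log T)) ≤ EW P B T ∧
        EW P B T ≤ ENNReal.ofReal (c * Real.sqrt (T * Real.log T)) := by
  refine ⟨1 / 10 ^ 14, by norm_num, ?_⟩
  intro Ω _ P _ B hB
  have h1 : ∀ᶠ T : ℝ in atTop,
      ENNReal.ofReal (1 / 10 ^ 14 * (Real.sqrt T * Real.log T)) ≤ EW P B T := by
    filter_upwards [eventually_ge_atTop (Real.exp 8)] with T hT
    exact lower hB hT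
  have h2 : ∀ c : ℝ, 0 < c → ∀ᶠ T : ℝ in atTop,
      ENNReal.ofReal (c * Real.sqrt (T * Real.log T)) < EW P B T := by
    intro c hc
    have hl : Tendsto (fun T : ℝ => Real.log T) atTop atTop := Real.tendsto_log_atTop
    filter_upwards [h1, eventually_ge_atTop (1 : ℝ),
      hl.eventually_gt_atTop ((c * 10 ^ 14) ^ 2)] with T hT hT1 hTl
    refine lt_of_lt_of_le ?_ hT
    have hlog : 0 < Real.log T := lt_of_le_of_lt (sq_nonneg _) hTl
    have hs : c * 10 ^ 14 < Real.sqrt (Real.log T) := by
      apply Real.lt_sqrt_of_sq_lt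
      exact hTl
    have hsT : 0 < Real.sqrt T := Real.sqrt_pos.2 (by linarith)
    have hsl : 0 < Real.sqrt (Real.log T) := Real.sqrt_pos.2 hlog
    have e : Real.sqrt (T * Real.log T) = Real.sqrt T * Real.sqrt (Real.log T) :=
      Real.sqrt_mul (by linarith) _
    have e2 : Real.log T = Real.sqrt (Real.log T) * Real.sqrt (Real.log T) :=
      (Real.mul_self_sqrt hlog.le).symm
    have hpos : 0 < 1 / 10 ^ 14 * (Real.sqrt T * Real.log T) := by positivity
    rw [ENNReal.ofReal_lt_ofReal_iff hpos, e]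
    have hc2 : c < 1 / 10 ^ 14 * Real.sqrt (Real.log T) := by
      have : c = 1 / 10 ^ 14 * (c * 10 ^ 14) := by ring
      rw [this]
      exact mul_lt_mul_of_pos_left hs (by norm_num)
    calc c * (Real.sqrt T * Real.sqrt (Real.log T))
        < 1 / 10 ^ 14 * Real.sqrt (Real.log T) * (Real.sqrt T * Real.sqrt (Real.log T)) :=
          mul_lt_mul_of_pos_right hc2 (mul_pos hsT hsl)
      _ = 1 / 10 ^ 14 * (Real.sqrt T * (Real.sqrt (Real.log T) * Real.sqrt (Real.log T))) := by
          ring
      _ = 1 / 10 ^ 14 * (Real.sqrt T * Real.log T) := by rw [← e2]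
  refine ⟨h1, h2, ?_⟩
  rintro ⟨c, hc, h⟩
  obtain ⟨T, hT1, hT2⟩ := (h.and (h2 c hc)).exists
  exact absurd hT1.2 (not_le.2 hT2)

end Pool.Agent.Results.MP_1d7982_pr.LogFactor
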